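import Pool.Graph.R_pool_sql_team_seeded_843ab51a.Results.MP_d567b2_al.ProductOfTwoFree
import Pool.Graph.R_seed8.TH74.Oligo.Pres

/-!
# All direct products of at least two free groups, and all values of `m`

`G = F_{r_1} × ⋯ × F_{r_n}` (`n ≥ 2`, all `r_i ≥ 2`) is finitely presented and intersection-full,
and it contains `F₂ × ℤ^m` exactly for `m < n`.
-/

set_option autoImplicit false

namespace Pool.Agent.Results.MP_d567b2_al.AllProducts

open Function

/-- `G` contains (a subgroup isomorphic to) `K`. -/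
def Contains (G K : Type) [Group G] [Group K] : Prop := ∃ f : K →* G, Injective f

/-- The configuration `c` (a `0/1`-valued map on the nonempty subsets of `[k]`) is realizable in
`G`: there are subgroups `H_1, …, H_k` such that for every nonempty `I` the intersection
`⋂_{i ∈ I} H_i` is finitely generated iff `c I = 0`. -/
def Realizable (G : Type) [Group G] {k : ℕ} (c : Finset (Fin k) → Fin 2) : Prop :=
  ∃ H : Fin k → Subgroup G, ∀ I : Finset (Fin k), I.Nonempty →
    ((⨅ i ∈ I, H i).FG ↔ c I = 0)

/-- `G` is intersection-full if every configuration is realizable in `G`. -/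
def IntersectionFull (G : Type) [Group G] : Prop :=
  ∀ k : ℕ, 1 ≤ k → ∀ c : Finset (Fin k) → Fin 2, Realizable G c

lemma fg_map_iff {G K : Type} [Group G] [Group K] {f : K →* G} (hf : Injective f)
    (H : Subgroup K) : (H.map f).FG ↔ H.FG := by
  rw [← Group.fg_iff_subgroup_fg, ← Group.fg_iff_subgroup_fg]
  constructor
  · intro h
    exact Group.fg_of_surjective (f := (H.equivMapOfInjective f hf).symm.toMonoidHom)
      (H.equivMapOfInjective f hf).symm.surjective
  · intro h
    exact Group.fg_of_surjective (f := (H.equivMapOfInjective f hf).toMonoidHom)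
      (H.equivMapOfInjective f hf).surjective

lemma full_mono {G K : Type} [Group G] [Group K] (h : Contains G K) (hK : IntersectionFull K) :
    IntersectionFull G := by
  obtain ⟨f, hf⟩ := h
  intro k hk c
  obtain ⟨H, hH⟩ := hK k hk c
  refine ⟨fun i => (H i).map f, fun I hI => ?_⟩
  have h1 : (⨅ i ∈ I, (H i).map f) = (⨅ i ∈ I, H i).map f := by
    have : Nonempty I := hI.to_subtype
    rw [iInf_subtype', iInf_subtype', ← Subgroup.map_iInf f hf]
  rw [h1, fg_map_iff hf]
  exact hH I hI

lemma two_full : IntersectionFull (FreeGroup (Fin 2) × FreeGroup (Fin 2)) :=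
  ProductOfTwoFree.result.2.1

/-! ### Finite presentability -/

/-- splitting off the first factor -/
def consEquiv {n : ℕ} (A : Fin (n + 1) → Type) [∀ i, Group (A i)] :
    (A 0 × (∀ i : Fin n, A i.succ)) ≃* (∀ i, A i) where
  toFun p := Fin.cons p.1 p.2
  invFun x := (x 0, fun i => x i.succ)
  left_inv p := by simp
  right_inv x := by
    funext i
    refine Fin.cases ?_ (fun j => ?_) i <;> simp
  map_mul' p q := by
    funext i
    refine Fin.cases ?_ (fun j => ?_) i <;> simp

lemma fp_pi : ∀ (n : ℕ) (r : Fin n → ℕ),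
    Group.IsFinitelyPresented (∀ i, FreeGroup (Fin (r i))) ∧
      Group.FG (∀ i, FreeGroup (Fin (r i))) := by
  intro n
  induction n with
  | zero =>
    intro r
    exact ⟨inferInstance, inferInstance⟩
  | succ n ih =>
    intro r
    obtain ⟨h1, h2⟩ := ih (fun i => r i.succ)
    have h3 : Group.FG (FreeGroup (Fin (r 0))) := inferInstance
    obtain ⟨A, hA, hA'⟩ := Group.fg_iff.1 h3
    obtain ⟨B, hB, hB'⟩ := Group.fg_iff.1 h2
    have h4 := Pool.Agent.TH74.Oligo.fp_prod (FreeGroup (Fin (r 0)))
      (∀ i : Fin n, FreeGroup (Fin (r i.succ))) A hA' hA B hB' hB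
    have e := consEquiv (fun i => FreeGroup (Fin (r i)))
    refine ⟨Group.IsFinitelyPresented.equiv e, ?_⟩
    have : Group.FG (FreeGroup (Fin (r 0)) × (∀ i : Fin n, FreeGroup (Fin (r i.succ)))) :=
      inferInstance
    exact Group.fg_of_surjective (f := e.toMonoidHom) e.surjective

/-! ### Abelian subgroups -/

lemma comm_to_int {α A : Type} [CommGroup A] (h : A →* FreeGroup α) :
    ∃ n : A →* Multiplicative ℤ, ∀ x, n x = 1 → h x = 1 := by
  have hcomm : ∀ a b : h.range, a * b = b * a := by
    rintro ⟨_, x, rfl⟩ ⟨_, y, rfl⟩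
    apply Subtype.ext
    show h x * h y = h y * h x
    rw [← map_mul, ← map_mul, mul_comm]
  have hfree : IsFreeGroup h.range := inferInstance
  let ι := IsFreeGroup.Generators h.range
  have e2 : FreeGroup ι ≃* h.range := IsFreeGroup.mulEquiv h.range
  have hcomm2 : ∀ a b : FreeGroup ι, a * b = b * a := by
    intro a b
    apply e2.injective
    rw [map_mul, map_mul, hcomm]
  have hsub : Subsingleton ι := by
    constructor
    intro a b
    by_contra hab
    classical
    let h : FreeGroup ι →* Equiv.Perm (Fin 3) :=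
      FreeGroup.lift fun i => if i = a then Equiv.swap 0 1 else Equiv.swap 1 2
    have h1 := congrArg h (hcomm2 (FreeGroup.of a) (FreeGroup.of b))
    rw [map_mul, map_mul] at h1
    simp only [h, FreeGroup.lift_apply_of, if_true] at h1
    rw [if_neg (fun h => hab h.symm)] at h1
    have h2 := congrArg (fun σ : Equiv.Perm (Fin 3) => σ 0) h1
    revert h2
    decide
  have key : ∃ m : h.range →* Multiplicative ℤ, Function.Injective m := by
    rcases isEmpty_or_nonempty ι with hι | ⟨⟨a⟩⟩
    · refine ⟨1, ?_⟩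
      intro x y _
      apply e2.symm.injective
      exact Subsingleton.elim _ _
    · have : Unique ι := { default := a, uniq := fun b => Subsingleton.elim b a }
      exact ⟨(FreeGroup.mulEquivIntOfUnique (α := ι)).toMonoidHom.comp e2.symm.toMonoidHom,
        (FreeGroup.mulEquivIntOfUnique (α := ι)).injective.comp e2.symm.injective⟩
  obtain ⟨m, hm⟩ := key
  refine ⟨m.comp h.rangeRestrict, fun x hx => ?_⟩
  have h1 : h.rangeRestrict x = 1 := hm (by rw [map_one]; exact hx)
  exact congrArg Subtype.val h1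

lemma of_zpow_ne {α : Type} (a : α) (n : ℤ) (h : (FreeGroup.of a) ^ n = 1) : n = 0 := by
  have h1 := congrArg (FreeGroup.lift (fun _ : α => Multiplicative.ofAdd (1 : ℤ))) h
  rw [map_zpow, FreeGroup.lift_apply_of, map_one (FreeGroup.lift _), ← ofAdd_zsmul] at h1
  simpa using congrArg Multiplicative.toAdd h1

/-- The embedding of `ℤ^(m+1)` in `F₂ × ℤ^m`. -/
def zm (m : ℕ) : Multiplicative (Fin (m + 1) → ℤ) →*
    FreeGroup (Fin 2) × Multiplicative (Fin m → ℤ) where
  toFun x := (FreeGroup.of 0 ^ (Multiplicative.toAdd x 0),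
    Multiplicative.ofAdd (fun i : Fin m => Multiplicative.toAdd x i.succ))
  map_one' := by
    ext <;> simp
  map_mul' x y := by
    refine Prod.ext ?_ ?_
    · simp [zpow_add]
    · rfl

lemma zm_inj (m : ℕ) : Injective (zm m) := by
  rw [injective_iff_map_eq_one]
  intro x hx
  have h1 := congrArg Prod.fst hx
  have h2 := congrArg Prod.snd hx
  have h3 : Multiplicative.toAdd x 0 = 0 := of_zpow_ne _ _ h1
  have h4 : ∀ i : Fin m, Multiplicative.toAdd x i.succ = 0 := fun i =>
    congrFun (congrArg Multiplicative.toAdd h2) i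
  apply Multiplicative.toAdd.injective
  funext i
  refine Fin.cases ?_ ?_ i
  · exact h3
  · exact h4

lemma lt_of_contains {n : ℕ} (r : Fin n → ℕ) {m : ℕ}
    (h : Contains (∀ i, FreeGroup (Fin (r i)))
      (FreeGroup (Fin 2) × Multiplicative (Fin m → ℤ))) : m < n := by
  obtain ⟨f, hf⟩ := h
  set g : Multiplicative (Fin (m + 1) → ℤ) →* (∀ i, FreeGroup (Fin (r i))) := f.comp (zm m)
    with hg
  have hgi : Injective g := by
    rw [hg, MonoidHom.coe_comp]
    exact hf.comp (zm_inj m)
  have hc := fun i => comm_to_int ((Pi.evalMonoidHom (fun i => FreeGroup (Fin (r i))) i).comp g)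
  choose N hN using hc
  let L : (Fin (m + 1) → ℤ) →ₗ[ℤ] (Fin n → ℤ) := LinearMap.pi (fun i =>
    (AddMonoidHom.toMultiplicative.symm (N i)).toIntLinearMap)
  have hL : Injective L := by
    rw [← LinearMap.ker_eq_bot, LinearMap.ker_eq_bot']
    intro x hx
    have e : ∀ i, N i (Multiplicative.ofAdd x) = 1 := fun i => congrFun hx i
    have e3 : g (Multiplicative.ofAdd x) = 1 := funext fun i => hN i _ (e i)
    have e4 : Multiplicative.ofAdd x = 1 := hgi (by rw [e3, map_one])
    exact e4
  have := card_le_of_injective ℤ L hL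
  simp only [Fintype.card_fin] at this
  omega

/-! ### Subgroups of the product -/

/-- the coordinates of the embedding of `F₂ × F₂` -/
def co2 {n : ℕ} (r : Fin n → ℕ) (hr : ∀ i, 2 ≤ r i) (i : Fin n) :
    FreeGroup (Fin 2) × FreeGroup (Fin 2) →* FreeGroup (Fin (r i)) :=
  if i.val = 0 then (FreeGroup.map (Fin.castLE (hr i))).comp (MonoidHom.fst _ _) else
    (FreeGroup.map (Fin.castLE (hr i))).comp (MonoidHom.snd _ _)

lemma contains_two {n : ℕ} (hn : 2 ≤ n) (r : Fin n → ℕ) (hr : ∀ i, 2 ≤ r i) :
    Contains (∀ i, FreeGroup (Fin (r i))) (FreeGroup (Fin 2) × FreeGroup (Fin 2)) := by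
  refine ⟨MonoidHom.pi (co2 r hr), ?_⟩
  rintro ⟨u, v⟩ ⟨u', v'⟩ h
  have h0 : co2 r hr ⟨0, by omega⟩ (u, v) = co2 r hr ⟨0, by omega⟩ (u', v') :=
    congrFun h ⟨0, by omega⟩
  have h1 : co2 r hr ⟨1, by omega⟩ (u, v) = co2 r hr ⟨1, by omega⟩ (u', v') :=
    congrFun h ⟨1, by omega⟩
  rw [co2, if_pos rfl] at h0
  rw [co2, if_neg (by simp)] at h1
  have e0 : u = u' := FreeGroup.map_injective (Fin.castLE_injective _) h0
  have e1 : v = v' := FreeGroup.map_injective (Fin.castLE_injective _) h1
  rw [e0, e1]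

/-- the coordinates of the embedding of `F₂ × ℤ^m` -/
def com {n : ℕ} (r : Fin n → ℕ) (hr : ∀ i, 2 ≤ r i) (m : ℕ) (i : Fin n) :
    FreeGroup (Fin 2) × Multiplicative (Fin m → ℤ) →* FreeGroup (Fin (r i)) :=
  if i.val = 0 then (FreeGroup.map (Fin.castLE (hr i))).comp (MonoidHom.fst _ _) else
    if h : i.val - 1 < m then
      ((zpowersHom (FreeGroup (Fin (r i))) (FreeGroup.of (Fin.castLE (hr i) 0))).comp
        (AddMonoidHom.toMultiplicative (Pi.evalAddMonoidHom (fun _ : Fin m => ℤ)
          ⟨i.val - 1, h⟩))).comp (MonoidHom.snd _ _) else 1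

lemma contains_of_lt {n : ℕ} (r : Fin n → ℕ) (hr : ∀ i, 2 ≤ r i) {m : ℕ} (hm : m < n) :
    Contains (∀ i, FreeGroup (Fin (r i)))
      (FreeGroup (Fin 2) × Multiplicative (Fin m → ℤ)) := by
  refine ⟨MonoidHom.pi (com r hr m), ?_⟩
  rw [injective_iff_map_eq_one]
  rintro ⟨u, x⟩ h
  have h0 : com r hr m ⟨0, by omega⟩ (u, x) = 1 := congrFun h ⟨0, by omega⟩
  rw [com, if_pos rfl] at h0
  have e0 : u = 1 := FreeGroup.map_injective (Fin.castLE_injective _) (by
    rw [map_one]; exact h0)
  have e1 : ∀ j : Fin m, Multiplicative.toAdd x j = 0 := by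
    intro j
    have h1 : com r hr m ⟨j.val + 1, by omega⟩ (u, x) = 1 := congrFun h ⟨j.val + 1, by omega⟩
    rw [com, if_neg (by simp), dif_pos (by simp)] at h1
    exact of_zpow_ne _ _ h1
  have e2 : x = 1 := by
    apply Multiplicative.toAdd.injective
    funext j
    exact e1 j
  rw [e0, e2]
  rfl

/-- **Direct products of free groups.** Let `n ≥ 2` and let `G` be the direct product of `n` free
groups of finite ranks at least two. Then `G` is finitely presented and intersection-full, and
`G` contains `F₂ × ℤ^m` iff `m < n`. So for every `m ≥ 2` there is a finitely presented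
intersection-full group which contains `F₂ × ℤ^(m-1)` and does not contain `F₂ × ℤ^m`. -/
theorem result (n : ℕ) (hn : 2 ≤ n) (r : Fin n → ℕ) (hr : ∀ i, 2 ≤ r i) :
    Group.IsFinitelyPresented (∀ i, FreeGroup (Fin (r i))) ∧
    IntersectionFull (∀ i, FreeGroup (Fin (r i))) ∧
    ∀ m : ℕ, Contains (∀ i, FreeGroup (Fin (r i)))
      (FreeGroup (Fin 2) × Multiplicative (Fin m → ℤ)) ↔ m < n :=
  ⟨(fp_pi n r).1, full_mono (contains_two hn r hr) two_full,
    fun _ => ⟨lt_of_contains r, contains_of_lt r hr⟩⟩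

end Pool.Agent.Results.MP_d567b2_al.AllProducts
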